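import Pool.Agent.Helper126.CpHomeo

open Set Topology Filter

namespace Pool.Agent.Helper126

section mft

/-- A Markov form of countable fan tightness of the subspace `M` at the point `b`. -/
def MFT {B : Type*} [TopologicalSpace B] (M : Set B) (b : B) : Prop :=
  ∃ σ : ℕ → Set B → Finset B, (∀ n D, D ⊆ M → b ∈ closure D → (σ n D : Set B) ⊆ D) ∧
    ∀ (D : ℕ → Set B) (N : Set ℕ), N.Infinite → (∀ n ∈ N, D n ⊆ M ∧ b ∈ closure (D n)) →
      b ∈ closure (⋃ n ∈ N, (σ n (D n) : Set B))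

theorem NN_anti {A I : Type*} (e : A → I → ℝ) {m : ℕ} {p q : Finset I × ℕ} (h1 : p.1 ⊆ q.1) (h2 : p.2 ≤ q.2)
    (x : Fin m → A) : NN e q x ⊆ NN e p x := by
  intro z hz j i hi
  refine (hz j i (h1 hi)).trans_le ?_
  have : (p.2 : ℝ) ≤ (q.2 : ℝ) := by exact_mod_cast h2
  exact one_div_le_one_div_of_le (by positivity) (by linarith)

theorem mem_closure_NN {A I : Type*} [TopologicalSpace A] {e : A → I → ℝ} (he : IsInducing e) {m : ℕ}
    (x : Fin m → A) (S : Set (Fin m → A)) :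
    x ∈ closure S ↔ ∀ p : Finset I × ℕ, ∃ z ∈ S, z ∈ NN e p x := by
  classical
  constructor
  · intro hx p
    obtain ⟨V, hSV, hV⟩ := mem_closure_iff_ultrafilter.mp hx
    have h1 : ∀ᶠ c in (V : Filter (Fin m → A)), c ∈ NN e p x :=
      NN_of_tendsto (a := id) he p fun j => ((continuous_apply j).tendsto x).mono_left hV
    obtain ⟨z, hz1, hz2⟩ := Filter.nonempty_of_mem (Filter.inter_mem hSV h1)
    exact ⟨z, hz1, hz2⟩
  · intro h
    have hne : (⨅ p : Finset I × ℕ, 𝓟 (S ∩ NN e p x)).NeBot := by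
      apply Filter.iInf_neBot_of_directed'
      · intro p q
        refine ⟨(p.1 ∪ q.1, max p.2 q.2), ?_, ?_⟩
        · exact Filter.principal_mono.mpr (inter_subset_inter_right _ (NN_anti e Finset.subset_union_left (le_max_left _ _) x))
        · exact Filter.principal_mono.mpr (inter_subset_inter_right _ (NN_anti e Finset.subset_union_right (le_max_right _ _) x))
      · intro p
        rw [Filter.principal_neBot_iff]
        obtain ⟨z, hz1, hz2⟩ := h p
        exact ⟨z, hz1, hz2⟩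
    obtain ⟨V, hV⟩ := @Ultrafilter.exists_le _ _ hne
    have hV' : ∀ p : Finset I × ℕ, S ∩ NN e p x ∈ (V : Filter (Fin m → A)) := fun p =>
      Filter.le_principal_iff.mp (hV.trans (iInf_le _ p))
    refine mem_closure_iff_ultrafilter.mpr ⟨V, Filter.mem_of_superset (hV' (∅, 0)) inter_subset_left, ?_⟩
    have h1 := tendsto_of_NN (a := id) he (V := (V : Filter (Fin m → A))) fun p =>
      Filter.mem_of_superset (hV' p) inter_subset_right
    have h2 : Tendsto id (V : Filter (Fin m → A)) (𝓝 x) := tendsto_pi_nhds.mpr h1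
    exact h2

/-- finite powers of function spaces of sigma-compact spaces have the Markov fan tightness -/
theorem MFT_pow {Y : Type*} [TopologicalSpace Y] [SigmaCompactSpace Y] (m : ℕ) (x : Fin m → Cp Y) : MFT univ x := by
  classical
  have he : IsInducing (fun a : Cp Y => a.1) := IsInducing.subtypeVal
  have key : ∀ (n : ℕ) (D : Set (Fin m → Cp Y)), ∃ E : Finset (Fin m → Cp Y), x ∈ closure D →
      (E : Set (Fin m → Cp Y)) ⊆ D ∧ ∀ G : Finset Y, G.card ≤ n → (∀ y ∈ G, y ∈ compactCovering Y n) →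
        ∃ z ∈ E, z ∈ NN (fun a : Cp Y => a.1) (G, n) x := by
    intro n D
    by_cases hx : x ∈ closure D
    · have hcl := (mem_closure_NN he x D).mp hx
      choose z hz1 hz2 using hcl
      let P : Set (Fin n → Y) := Set.pi univ fun _ => compactCovering Y n
      have hP : IsCompact P := isCompact_univ_pi fun _ => isCompact_compactCovering Y n
      let W : (Fin n → Y) → Set (Fin n → Y) := fun y =>
        {y' | ∀ j i, |(z (Finset.univ.image y, n) j).1 (y' i) - (x j).1 (y' i)| < 1 / ((n : ℝ) + 1)}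
      have hWo : ∀ y, IsOpen (W y) := by
        intro y
        have : W y = ⋂ j, ⋂ i, {y' | |(z (Finset.univ.image y, n) j).1 (y' i) - (x j).1 (y' i)| < 1 / ((n : ℝ) + 1)} := by
          ext; simp [W]
        rw [this]
        refine isOpen_iInter_of_finite fun j => isOpen_iInter_of_finite fun i => ?_
        refine isOpen_lt ?_ continuous_const
        exact (((z _ j).2.comp (continuous_apply i)).sub ((x j).2.comp (continuous_apply i))).abs
      have hWy : ∀ y ∈ P, W y ∈ 𝓝 y := by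
        intro y _
        refine (hWo y).mem_nhds ?_
        intro j i
        exact hz2 (Finset.univ.image y, n) j (y i) (Finset.mem_image_of_mem _ (Finset.mem_univ _))
      obtain ⟨t, ht1, ht2⟩ := hP.elim_nhds_subcover W hWy
      refine ⟨insert (z (∅, 0)) (t.image fun y => z (Finset.univ.image y, n)), fun _ => ⟨?_, ?_⟩⟩
      · intro w hw
        rcases Finset.mem_insert.mp hw with rfl | hw
        · exact hz1 _
        · obtain ⟨y, _, rfl⟩ := Finset.mem_image.mp hw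
          exact hz1 _
      · intro G hG hGK
        rcases G.eq_empty_or_nonempty with rfl | hne
        · refine ⟨_, Finset.mem_insert_self _ _, ?_⟩
          intro j i hi
          simp at hi
        · have hcard : Fintype.card G ≤ Fintype.card (Fin n) := by simpa using hG
          obtain ⟨f⟩ := Function.Embedding.nonempty_of_card_le hcard
          have : Nonempty G := hne.to_subtype
          let y' : Fin n → Y := fun i => ((Function.invFun f i : G) : Y)
          have hy' : y' ∈ P := fun i _ => hGK _ (Function.invFun f i).2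
          obtain ⟨y, hyt, hy⟩ := mem_iUnion₂.mp (ht2 hy')
          refine ⟨z (Finset.univ.image y, n), Finset.mem_insert_of_mem (Finset.mem_image_of_mem _ hyt), ?_⟩
          intro j i hi
          have h1 := hy j (f ⟨i, hi⟩)
          have h2 : y' (f ⟨i, hi⟩) = i := by
            simp only [y']
            rw [Function.leftInverse_invFun f.injective ⟨i, hi⟩]
          rw [h2] at h1
          exact h1
    · exact ⟨∅, fun h => absurd h hx⟩
  choose E hE using key
  refine ⟨E, fun n D _ hD => (hE n D hD).1, ?_⟩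
  intro D N hN hD
  rw [mem_closure_NN he]
  rintro ⟨G, k⟩
  have h1 : ∃ L, ∀ y ∈ G, y ∈ compactCovering Y L := by
    have : ∀ y : Y, ∃ L, y ∈ compactCovering Y L := exists_mem_compactCovering
    choose L hL using this
    exact ⟨G.sup L, fun y hy => compactCovering_subset Y (Finset.le_sup hy) (hL y)⟩
  obtain ⟨L, hL⟩ := h1
  obtain ⟨n, hnN, hn⟩ := hN.exists_gt (max (max G.card k) L)
  have hn1 : G.card ≤ n := (le_max_left _ _).trans ((le_max_left _ _).trans hn.le)
  have hn2 : k ≤ n := (le_max_right _ _).trans ((le_max_left _ _).trans hn.le)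
  have hn3 : L ≤ n := (le_max_right _ _).trans hn.le
  obtain ⟨z, hz1, hz2⟩ := (hE n (D n) (hD n hnN).2).2 G hn1 fun y hy => compactCovering_subset Y hn3 (hL y hy)
  refine ⟨z, mem_iUnion₂.mpr ⟨n, hnN, hz1⟩, ?_⟩
  exact NN_anti (p := (G, k)) (q := (G, n)) _ (Finset.Subset.refl _) hn2 x hz2

variable {A B : Type*} [TopologicalSpace A] [T35Space A] [TopologicalSpace B] [T35Space B]

/-- the Markov fan tightness passes to the pieces -/
theorem piece_MFT (h : Cp A ≃ₜ Cp B) (h0 : ∀ b, (h ⟨fun _ => 0, continuous_const⟩).1 b = 0) (n m : ℕ)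
    (hA : ∀ x : Fin m → A, MFT univ x) (b : B) (hb : b ∈ Piece h n m) : MFT (Piece h n m) b := by
  classical
  have hL : {x : Fin m → A | PT h n x b}.Finite := finite_PT h h.continuous n m b hb.2
  choose G hG using fun x : Fin m → A => point_converges h h0 n m x
  let Γ : Finset B := hL.toFinset.biUnion G
  obtain ⟨O, hO, hOc, hOΓ⟩ : ∃ O ∈ 𝓝 b, IsClosed O ∧ ∀ c ∈ O, c ∈ Γ → c = b := by
    have h1 : (((Γ.erase b : Finset B) : Set B)ᶜ) ∈ 𝓝 b :=
      (Finset.isClosed _).isOpen_compl.mem_nhds (by simp)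
    obtain ⟨O, hO, hOc, hO2⟩ := exists_mem_nhds_isClosed_subset h1
    refine ⟨O, hO, hOc, fun c hc hcΓ => ?_⟩
    by_contra hcb
    exact hO2 hc (by simp [hcb, hcΓ])
  have hch : ∀ c : B, ∃ x : Fin m → A, c ∈ Piece h n m → PT h n x c := by
    intro c
    by_cases hc : c ∈ Piece h n m
    · obtain ⟨x, hx⟩ := hc.1
      exact ⟨x, fun _ => hx⟩
    · exact ⟨hb.1.choose, fun hc' => absurd hc' hc⟩
  choose a ha using hch
  choose τ hτ1 hτ2 using hA
  -- choose the limit tuple and the finite set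
  have hsel : ∀ (k : ℕ) (D : Set B), ∃ (x : Fin m → A) (E : Finset B), D ⊆ Piece h n m → b ∈ closure D →
      PT h n x b ∧ (E : Set B) ⊆ D ∩ O ∧ E.image a = τ x k (a '' (D ∩ O)) ∧ x ∈ closure (a '' (D ∩ O)) := by
    intro k D
    by_cases hD : D ⊆ Piece h n m ∧ b ∈ closure D
    · obtain ⟨V, hDV, hV⟩ := mem_closure_iff_ultrafilter.mp hD.2
      obtain ⟨x, hx1, hx2⟩ := coord_converges h h.continuous n m b hb.2 V hV a
        (Filter.mem_of_superset hDV fun c hc => ha c (hD.1 hc))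
      have hx3 : x ∈ closure (a '' (D ∩ O)) := by
        refine mem_closure_of_tendsto (tendsto_pi_nhds.mpr hx1) ?_
        exact Filter.mem_of_superset (Filter.inter_mem hDV (hV hO)) fun c hc => mem_image_of_mem a hc
      obtain ⟨E, hE1, hE2⟩ := Finset.subset_set_image_iff.mp (hτ1 x k _ (subset_univ _) hx3)
      exact ⟨x, E, fun _ _ => ⟨hx2, hE1, hE2, hx3⟩⟩
    · exact ⟨hb.1.choose, ∅, fun h1 h2 => absurd ⟨h1, h2⟩ hD⟩
  choose xx E hE using hsel
  refine ⟨E, fun k D h1 h2 => (hE k D h1 h2).2.1.trans inter_subset_left, ?_⟩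
  intro D N hN hD
  -- pigeonhole
  obtain ⟨x, hx, hxN⟩ : ∃ x ∈ {x : Fin m → A | PT h n x b}, {k ∈ N | xx k (D k) = x}.Infinite := by
    by_contra hcon
    push Not at hcon
    apply hN
    have hcov : N ⊆ ⋃ x ∈ {x : Fin m → A | PT h n x b}, {k ∈ N | xx k (D k) = x} := by
      intro k hk
      exact mem_iUnion₂.mpr ⟨xx k (D k), (hE k (D k) (hD k hk).1 (hD k hk).2).1, hk, rfl⟩
    refine (hL.biUnion fun x hx => ?_).subset hcov
    exact hcon x hx
  have h1 : x ∈ closure (⋃ k ∈ {k ∈ N | xx k (D k) = x}, (τ x k (a '' (D k ∩ O)) : Set (Fin m → A))) := by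
    apply hτ2 x (fun k => a '' (D k ∩ O)) _ hxN
    intro k hk
    refine ⟨subset_univ _, ?_⟩
    have := (hE k (D k) (hD k hk.1).1 (hD k hk.1).2).2.2.2
    rw [hk.2] at this
    exact this
  let S : Set B := ⋃ k ∈ {k ∈ N | xx k (D k) = x}, (E k (D k) : Set B)
  have h2 : (⋃ k ∈ {k ∈ N | xx k (D k) = x}, (τ x k (a '' (D k ∩ O)) : Set (Fin m → A))) ⊆ a '' S := by
    intro w hw
    obtain ⟨k, hk, hw⟩ := mem_iUnion₂.mp hw
    have h3 := (hE k (D k) (hD k hk.1).1 (hD k hk.1).2).2.2.1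
    rw [hk.2] at h3
    rw [← h3] at hw
    obtain ⟨c, hc, rfl⟩ := Finset.mem_image.mp hw
    exact ⟨c, mem_iUnion₂.mpr ⟨k, hk, hc⟩, rfl⟩
  have h3 : x ∈ closure (a '' S) := closure_mono h2 h1
  have hne : (comap a (𝓝 x) ⊓ 𝓟 S).NeBot := by
    rw [Filter.inf_principal_neBot_iff]
    intro U hU
    obtain ⟨W, hW, hWU⟩ := Filter.mem_comap.mp hU
    obtain ⟨_, hw1, c, hc, rfl⟩ := mem_closure_iff_nhds.mp h3 W hW
    exact ⟨c, hWU hw1, hc⟩
  obtain ⟨V, hV⟩ := @Ultrafilter.exists_le _ _ hne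
  have hVS : S ∈ (V : Filter B) := Filter.le_principal_iff.mp (hV.trans inf_le_right)
  have hVa : Tendsto a V (𝓝 x) := Filter.tendsto_iff_comap.mpr (hV.trans inf_le_left)
  have hSO : S ⊆ O := by
    intro c hc
    obtain ⟨k, hk, hc⟩ := mem_iUnion₂.mp hc
    exact ((hE k (D k) (hD k hk.1).1 (hD k hk.1).2).2.1 hc).2
  have hSP : S ⊆ Piece h n m := by
    intro c hc
    obtain ⟨k, hk, hc⟩ := mem_iUnion₂.mp hc
    exact (hD k hk.1).1 ((hE k (D k) (hD k hk.1).1 (hD k hk.1).2).2.1 hc).1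
  obtain ⟨c, hc, hcV⟩ := hG x V a (tendsto_pi_nhds.mp hVa) (Filter.mem_of_superset hVS fun c hc => ha c (hSP hc))
  have hcO : c ∈ O := isClosed_iff_ultrafilter.mp hOc c V hcV (Filter.mem_of_superset hVS hSO)
  have hcb : c = b := hOΓ c hcO (Finset.mem_biUnion.mpr ⟨x, by simpa using hx, hc⟩)
  subst hcb
  refine closure_mono ?_ (mem_closure_iff_ultrafilter.mpr ⟨V, hVS, hcV⟩)
  intro w hw
  obtain ⟨k, hk, hw⟩ := mem_iUnion₂.mp hw
  exact mem_iUnion₂.mpr ⟨k, hk.1, hw⟩

/-- a function space which is a countable union of pieces with Markov fan tightness has a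
sigma-compact domain -/
theorem sigmaCompact_of_pieces {X J : Type*} [TopologicalSpace X] [T35Space X] [Countable J]
    (M : J → Set (Cp X)) (hM : ∀ b, ∃ n, b ∈ M n) (hMFT : ∀ n, ∀ b ∈ M n, MFT (M n) b) :
    SigmaCompactSpace X := by
  classical
  let r : BoundedContinuousFunction X ℝ → Cp X := fun f => ⟨f, f.continuous⟩
  let N : J → Set (BoundedContinuousFunction X ℝ) := fun n => r ⁻¹' (M n)
  obtain ⟨n, hn⟩ := nonempty_interior_of_iUnion_of_closed (f := fun n => closure (N n)) (fun n => isClosed_closure) (by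
    rw [eq_univ_iff_forall]
    intro f
    obtain ⟨n, hn⟩ := hM (r f)
    exact mem_iUnion.mpr ⟨n, subset_closure hn⟩)
  obtain ⟨f0, hf0⟩ := hn
  obtain ⟨ε, hε, hball⟩ := Metric.mem_nhds_iff.mp (mem_interior_iff_mem_nhds.mp hf0)
  obtain ⟨f, hfN, hff0⟩ := Metric.mem_closure_iff.mp (interior_subset hf0) (ε / 4) (by positivity)
  obtain ⟨σ, hσ1, hσ2⟩ := hMFT n (r f) hfN
  let Z : Cp X → Set X := fun g => {x | |g.1 x - f x| ≤ ε / 8}
  have hZc : ∀ g, IsClosed (Z g) := fun g => isClosed_le (g.2.sub f.continuous).abs continuous_const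
  let IsCov : Set (Set X) → Prop := fun 𝒪 => (∀ U ∈ 𝒪, IsOpen U) ∧ ⋃₀ 𝒪 = univ
  let D : Set (Set X) → Set (Cp X) := fun 𝒪 => {g | g ∈ M n ∧ ∃ 𝓕 ⊆ 𝒪, 𝓕.Finite ∧ Z g ⊆ ⋃₀ 𝓕}
  have hD : ∀ 𝒪, IsCov 𝒪 → r f ∈ closure (D 𝒪) := by
    intro 𝒪 h𝒪
    rw [mem_closure_iff_nhds]
    intro U hU
    obtain ⟨G, k, hG⟩ := exists_finset_nhds (r f) hU
    have hch : ∀ x : X, ∃ U ∈ 𝒪, x ∈ U := fun x => by
      have : x ∈ ⋃₀ 𝒪 := h𝒪.2 ▸ mem_univ x
      exact mem_sUnion.mp this
    choose c hc1 hc2 using hch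
    let 𝓕 : Set (Set X) := c '' (G : Set X)
    have h𝓕 : 𝓕 ⊆ 𝒪 := by
      rintro _ ⟨x, _, rfl⟩
      exact hc1 x
    have hGF : ∀ x ∈ G, x ∈ ⋃₀ 𝓕 := fun x hx => mem_sUnion.mpr ⟨c x, ⟨x, hx, rfl⟩, hc2 x⟩
    obtain ⟨u, hu1, hu2, hu3, hu4⟩ := exists_bump (isOpen_sUnion fun U hU => h𝒪.1 U (h𝓕 hU)) G hGF
    let ub : BoundedContinuousFunction X ℝ := BoundedContinuousFunction.ofNormedAddCommGroup (fun y => 1 - u y)
      (continuous_const.sub hu1) 1 (by
        intro y
        rw [Real.norm_eq_abs, abs_of_nonneg (by linarith [(hu4 y).2])]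
        linarith [(hu4 y).1])
    have hub : ‖ub‖ ≤ 1 := BoundedContinuousFunction.norm_ofNormedAddCommGroup_le _ zero_le_one _
    let f' := f + (ε / 2) • ub
    have hf' : f' ∈ closure (N n) := by
      apply hball
      rw [Metric.mem_ball]
      have h1 : dist f' f ≤ ε / 2 := by
        rw [dist_eq_norm]
        simp only [f', add_sub_cancel_left]
        rw [norm_smul, Real.norm_of_nonneg (by positivity)]
        nlinarith
      have h2 : dist f' f0 ≤ dist f' f + dist f f0 := dist_triangle _ _ _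
      rw [dist_comm] at hff0
      linarith
    obtain ⟨g, hgN, hg⟩ := Metric.mem_closure_iff.mp hf' (min (1 / ((k : ℝ) + 1)) (ε / 8)) (by positivity)
    have hgd : ∀ y, |f' y - g y| < min (1 / ((k : ℝ) + 1)) (ε / 8) := by
      intro y
      have := BoundedContinuousFunction.dist_coe_le_dist (f := f') (g := g) y
      rw [Real.dist_eq] at this
      exact this.trans_lt hg
    have hf'y : ∀ y, f' y = f y + ε / 2 * (1 - u y) := fun y => rfl
    refine ⟨r g, hG (r g) ?_, hgN, 𝓕, h𝓕, (Finset.finite_toSet G).image c, ?_⟩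
    · intro a ha
      have h1 := hgd a
      rw [hf'y, hu2 a ha, sub_self, mul_zero, add_zero, abs_sub_comm] at h1
      exact h1.trans_le (min_le_left _ _)
    · intro x hx
      by_contra hxF
      have h3 := (hgd x).trans_le (min_le_right _ _)
      rw [hf'y, hu3 x hxF] at h3
      have h4 : |g x - f x| ≤ ε / 8 := hx
      rw [abs_lt] at h3
      rw [abs_le] at h4
      linarith [h3.1, h3.2, h4.1, h4.2]
  let K : ℕ → Set X := fun k => ⋂ (𝒪 : Set (Set X)) (_ : IsCov 𝒪), ⋃ g ∈ σ k (D 𝒪), Z g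
  have hDM : ∀ 𝒪, D 𝒪 ⊆ M n := fun 𝒪 g hg => hg.1
  have hKc : ∀ k, IsCompact (K k) := by
    intro k
    have hKcl : IsClosed (K k) := isClosed_iInter fun 𝒪 => isClosed_iInter fun _ =>
      (Finset.finite_toSet _).isClosed_biUnion fun g _ => hZc g
    rw [isCompact_iff_finite_subcover]
    intro ι U hU hKU
    let 𝒪 : Set (Set X) := insert (K k)ᶜ (range U)
    have h𝒪 : IsCov 𝒪 := by
      refine ⟨?_, ?_⟩
      · rintro V (rfl | ⟨i, rfl⟩)
        · exact hKcl.isOpen_compl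
        · exact hU i
      · rw [eq_univ_iff_forall]
        intro x
        by_cases hx : x ∈ K k
        · obtain ⟨i, hi⟩ := mem_iUnion.mp (hKU hx)
          exact mem_sUnion.mpr ⟨U i, Or.inr ⟨i, rfl⟩, hi⟩
        · exact mem_sUnion.mpr ⟨(K k)ᶜ, Or.inl rfl, hx⟩
    have hsub : K k ⊆ ⋃ g ∈ σ k (D 𝒪), Z g := iInter₂_subset 𝒪 h𝒪
    have hfin : ∀ g ∈ σ k (D 𝒪), ∃ t : Finset ι, Z g ∩ K k ⊆ ⋃ i ∈ t, U i := by
      intro g hg
      obtain ⟨_, 𝓕, h𝓕1, h𝓕2, h𝓕3⟩ := hσ1 k (D 𝒪) (hDM 𝒪) (hD 𝒪 h𝒪) hg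
      have hch : ∀ V : Set X, ∃ t : Finset ι, V ∈ 𝓕 → V ∩ K k ⊆ ⋃ i ∈ t, U i := by
        intro V
        by_cases hV : V ∈ 𝓕
        · rcases h𝓕1 hV with rfl | ⟨i, rfl⟩
          · exact ⟨∅, fun _ x hx => absurd hx.2 hx.1⟩
          · exact ⟨{i}, fun _ x hx => by simpa using hx.1⟩
        · exact ⟨∅, fun h => absurd h hV⟩
      choose t ht using hch
      refine ⟨h𝓕2.toFinset.biUnion t, ?_⟩
      rintro x ⟨hx1, hx2⟩
      obtain ⟨V, hV, hxV⟩ := mem_sUnion.mp (h𝓕3 hx1)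
      obtain ⟨i, hi, hxi⟩ := mem_iUnion₂.mp (ht V hV ⟨hxV, hx2⟩)
      exact mem_iUnion₂.mpr ⟨i, Finset.mem_biUnion.mpr ⟨V, by simpa using hV, hi⟩, hxi⟩
    choose! t ht using hfin
    refine ⟨(σ k (D 𝒪)).biUnion t, fun x hx => ?_⟩
    obtain ⟨g, hg, hxg⟩ := mem_iUnion₂.mp (hsub hx)
    obtain ⟨i, hi, hxi⟩ := mem_iUnion₂.mp (ht g hg ⟨hxg, hx⟩)
    exact mem_iUnion₂.mpr ⟨i, Finset.mem_biUnion.mpr ⟨g, hg, hi⟩, hxi⟩
  refine ⟨K, hKc, ?_⟩
  rw [eq_univ_iff_forall]
  intro x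
  by_contra hx
  rw [mem_iUnion] at hx
  push Not at hx
  have hx' : ∀ k, ∃ 𝒪, IsCov 𝒪 ∧ x ∉ ⋃ g ∈ σ k (D 𝒪), Z g := by
    intro k
    have := hx k
    simp only [K, mem_iInter] at this
    push Not at this
    exact this
  choose 𝒪 h𝒪1 h𝒪2 using hx'
  have h1 : r f ∈ closure (⋃ k ∈ (univ : Set ℕ), (σ k (D (𝒪 k)) : Set (Cp X))) :=
    hσ2 (fun k => D (𝒪 k)) univ infinite_univ fun k _ => ⟨hDM _, hD _ (h𝒪1 k)⟩
  have hU : {b : Cp X | |b.1 x - f x| < ε / 8} ∈ 𝓝 (r f) := by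
    have hc : Continuous fun g' : Cp X => |g'.1 x - f x| :=
      (((continuous_apply x).comp continuous_subtype_val).sub continuous_const).abs
    apply (isOpen_lt hc continuous_const).mem_nhds
    show |f x - f x| < ε / 8
    rw [sub_self, abs_zero]
    positivity
  obtain ⟨g, hg1, hg2⟩ := mem_closure_iff_nhds.mp h1 _ hU
  obtain ⟨k, _, hg3⟩ := mem_iUnion₂.mp hg2
  have hg4 : |g.1 x - f x| ≤ ε / 8 := le_of_lt hg1
  exact h𝒪2 k (mem_iUnion₂.mpr ⟨g, hg3, hg4⟩)

/-- Sigma-compactness is preserved by homeomorphisms of second function spaces. -/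
theorem sigmaCompact_of_homeo {X Y : Type*} [TopologicalSpace X] [T35Space X] [TopologicalSpace Y] [T35Space Y]
    [SigmaCompactSpace Y] (h : Cp (Cp Y) ≃ₜ Cp (Cp X)) : SigmaCompactSpace X := by
  obtain ⟨h', h0⟩ := exists_norm_homeo h
  refine sigmaCompact_of_pieces (J := ℕ × ℕ) (fun q => Piece h' q.1 q.2) ?_ ?_
  · intro b
    obtain ⟨n, m, hb⟩ := exists_Piece h' h'.continuous h0 b
    exact ⟨(n, m), hb⟩
  · intro q b hb
    exact piece_MFT h' h0 q.1 q.2 (fun x => MFT_pow q.2 x) b hb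

end mft

end Pool.Agent.Helper126
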